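import Pool.Agent.H98.SLN.Targets

/-!
Row W1D of the board sln_modules: deterministic properties of the functional of a box.
-/

set_option autoImplicit false

open MeasureTheory ProbabilityTheory Filter Topology
open scoped ENNReal
open Pool.Agent.H95 Pool.Agent.H95.Cop
open Pool.Agent.H55.CG (pz VV Mo)
open Pool.Agent.H98.CE (pc WB HK OBJ PX)
open Pool.Agent.H98.SLN

namespace Pool.Agent.H37.SLN

namespace W1D

/-- pairs of cells -/
theorem mem_PP {n d0 d1 : ℕ} {p : ℕ × ℕ} (hp : p ∈ PP n d0 d1) :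
    p.1 < n ∧ p.2 < n ∧ p.1 + d0 ≤ p.2 + 1 ∧ p.2 + 1 ≤ p.1 + d1 := by
  simp only [PP, Finset.mem_filter, Finset.mem_product, Finset.mem_range] at hp
  exact ⟨hp.1.1, hp.1.2, hp.2.1, hp.2.2⟩

theorem H_congr {x x' : ℕ → ℝ} {N a b : ℕ} (h : ∀ i < N, x i = x' i) (hb : b ≤ N) :
    H x a b = H x' a b := by
  unfold H
  refine Finset.sum_congr rfl fun i hi => h i ?_
  rw [Finset.mem_Ico] at hi
  omega

theorem meas_H (a b : ℕ) : Measurable (fun x : ℕ → ℝ => H x a b) := by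
  unfold H
  fun_prop

theorem cell_le {b n ℓ : ℕ} (hb : b < n) : (b + 1) * ℓ ≤ n * ℓ :=
  Nat.mul_le_mul_right _ hb

theorem cD_congr {ℓ : ℕ} {x x' : ℕ → ℝ} {n a b : ℕ} (h : ∀ i < n * ℓ, x i = x' i)
    (hb : b < n) : cD ℓ x a b = cD ℓ x' a b := by
  unfold cD
  rw [H_congr h (cell_le hb)]

theorem meas_cD (ℓ a b : ℕ) : Measurable (fun x : ℕ → ℝ => cD ℓ x a b) := by
  unfold cD
  exact ((meas_H _ _).div_const _).add_const _

theorem YY_congr (hUQB : T_UQB) {K : PMF ℕ} {ℓ q : ℕ} {x x' : ℕ → ℝ} {n a b : ℕ}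
    (h : ∀ i < n * ℓ, x i = x' i) (ha : a < n) (hb : b < n) :
    YY K ℓ q x a b = YY K ℓ q x' a b := by
  unfold YY
  congr 1
  refine Finset.sum_congr rfl fun y hy => Finset.sum_congr rfl fun z hz => ?_
  rw [Finset.mem_Ico] at hy hz
  have h1 : y < n * ℓ := lt_of_lt_of_le hy.2 (cell_le ha)
  have h2 : z < n * ℓ := lt_of_lt_of_le hz.2 (cell_le hb)
  rw [H_congr h h2.le]
  congr 1
  refine ((hUQB K q).2.2.2.1 (z - y) y).2 x x' fun i hi => h i ?_
  omega

theorem meas_YY (hUQB : T_UQB) (K : PMF ℕ) (ℓ q a b : ℕ) :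
    Measurable (fun x : ℕ → ℝ => YY K ℓ q x a b) := by
  unfold YY
  refine Measurable.div_const ?_ _
  refine Finset.measurable_fun_sum _ fun y _ => Finset.measurable_fun_sum _ fun z _ => ?_
  exact (((meas_H y z).div_const _).const_mul _).add ((hUQB K q).2.2.2.1 (z - y) y).1

theorem meas_gd (hUQB : T_UQB) (K : PMF ℕ) (ℓ q : ℕ) (β : ℝ) (p : ℕ × ℕ) :
    MeasurableSet {x : ℕ → ℝ | gd K ℓ q β x p} := by
  unfold gd
  have h1 : MeasurableSet {x : ℕ → ℝ | cD ℓ x p.1 p.2 - 60 ≤ YY K ℓ q x p.1 p.2} :=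
    measurableSet_le ((meas_cD ℓ p.1 p.2).sub_const _) (meas_YY hUQB K ℓ q p.1 p.2)
  have h2 : MeasurableSet {x : ℕ → ℝ | β + 63 ≤ cD ℓ x p.1 p.2} :=
    measurableSet_le measurable_const (meas_cD ℓ p.1 p.2)
  exact h1.inter h2

theorem gd_congr (hUQB : T_UQB) {K : PMF ℕ} {ℓ q : ℕ} {β : ℝ} {x x' : ℕ → ℝ} {n : ℕ}
    {p : ℕ × ℕ} (h : ∀ i < n * ℓ, x i = x' i) (ha : p.1 < n) (hb : p.2 < n) :
    gd K ℓ q β x p ↔ gd K ℓ q β x' p := by
  unfold gd
  rw [cD_congr h hb, YY_congr hUQB h ha hb]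

theorem exp_three : (8 : ℝ) ≤ Real.exp 3 := by
  have h1 : (2 : ℝ) ≤ Real.exp 1 := by
    have := Real.add_one_le_exp (1 : ℝ)
    linarith
  have h2 : Real.exp 3 = Real.exp 1 ^ 3 := by
    rw [← Real.exp_nat_mul]
    norm_num
  rw [h2]
  calc (8 : ℝ) = 2 ^ 3 := by norm_num
    _ ≤ Real.exp 1 ^ 3 := pow_le_pow_left₀ (by norm_num) h1 3

end W1D

open W1D in
/-- row W1D -/
theorem pf_W1D (hPCB : Pool.Agent.H98.CE.T_PCB) (hUQB : T_UQB) (hTLQ : T_TLQ) (hHKR : T_HKR)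
    (hMAS : T_MAS) (hPCJ : T_PCJ) : T_W1D := by
  classical
  intro K α c δ ℓ q hRG n d0 d1 β hd0 hd1
  obtain ⟨hℓ, -⟩ := hTLQ K α c δ ℓ q hRG
  obtain ⟨-, -, hVV⟩ := hHKR K α c δ ℓ q hRG
  have hpc0 : ∀ (x : ℕ → ℝ) (a b : ℕ), 0 ≤ pc K ℓ x a b := fun x a b =>
    (((hPCB K ℓ hℓ).2 a b).1 x 0).1
  -- a good pair
  have hgood : ∀ (x : ℕ → ℝ) (p : ℕ × ℕ), p ∈ PP n d0 d1 → gd K ℓ q β x p →
      Real.exp (cD ℓ x p.1 p.2 - 63) ≤ pc K ℓ x p.1 p.2 := by
    intro x p hp hg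
    obtain ⟨hp1, hp2, hp3, hp4⟩ := mem_PP hp
    have hab : p.1 + 1 ≤ p.2 := by omega
    have hle : ((p.2 : ℝ) + 1 - p.1) ≤ d1 := by
      have : ((p.2 + 1 : ℕ) : ℝ) ≤ ((p.1 + d1 : ℕ) : ℝ) := by exact_mod_cast hp4
      push_cast at this
      linarith
    have h9 : 2 ^ 9 * Real.sqrt δ * ((p.2 : ℝ) + 1 - p.1) ≤ 1 :=
      (mul_le_mul_of_nonneg_left hle (by positivity)).trans hd1
    obtain ⟨hM1, hM0⟩ := hMAS K α c δ ℓ q hRG p.1 p.2 hab h9
    have hJ := hPCJ K ℓ q x p.1 p.2 hℓ (by omega) hM0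
    refine le_trans ?_ hJ
    have h8 : 1 / 8 ≤ MM K ℓ q p.1 p.2 / VV K ℓ := by
      rw [le_div_iff₀ hVV]
      linarith
    have h10 : Real.exp (cD ℓ x p.1 p.2 - 60) ≤ Real.exp (YY K ℓ q x p.1 p.2) :=
      Real.exp_le_exp.mpr hg.1
    have h11 : Real.exp (cD ℓ x p.1 p.2 - 63) * 8 ≤ Real.exp (cD ℓ x p.1 p.2 - 60) := by
      calc Real.exp (cD ℓ x p.1 p.2 - 63) * 8
          ≤ Real.exp (cD ℓ x p.1 p.2 - 63) * Real.exp 3 :=
            mul_le_mul_of_nonneg_left exp_three (Real.exp_pos _).le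
        _ = Real.exp (cD ℓ x p.1 p.2 - 60) := by
            rw [← Real.exp_add]
            congr 1
            ring
    calc Real.exp (cD ℓ x p.1 p.2 - 63)
        ≤ 1 / 8 * Real.exp (cD ℓ x p.1 p.2 - 60) := by linarith
      _ ≤ MM K ℓ q p.1 p.2 / VV K ℓ * Real.exp (YY K ℓ q x p.1 p.2) :=
          mul_le_mul h8 h10 (Real.exp_pos _).le (by positivity)
  refine ⟨?_, ?_, ?_, ?_, fun x => ?_⟩
  · unfold w1
    refine Finset.measurable_fun_sum _ fun p _ => ?_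
    exact Measurable.ite (meas_gd hUQB K ℓ q β p)
      (Real.measurable_exp.comp ((meas_cD ℓ p.1 p.2).sub_const _)) measurable_const
  · unfold l1
    have hset : MeasurableSet {x : ℕ → ℝ | ∃ p ∈ PP n d0 d1, gd K ℓ q β x p} := by
      have : {x : ℕ → ℝ | ∃ p ∈ PP n d0 d1, gd K ℓ q β x p} =
          ⋃ p ∈ PP n d0 d1, {x : ℕ → ℝ | gd K ℓ q β x p} := by
        ext x
        simp
      rw [this]
      exact Finset.measurableSet_biUnion _ fun p _ => meas_gd hUQB K ℓ q β p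
    exact Measurable.ite hset measurable_const measurable_const
  · intro x x' hx
    unfold w1
    refine Finset.sum_congr rfl fun p hp => ?_
    obtain ⟨hp1, hp2, -, -⟩ := mem_PP hp
    rw [cD_congr hx hp2]
    exact if_congr (gd_congr hUQB hx hp1 hp2) rfl rfl
  · intro x x' hx
    unfold l1
    refine if_congr ?_ rfl rfl
    constructor
    · rintro ⟨p, hp, hg⟩
      obtain ⟨hp1, hp2, -, -⟩ := mem_PP hp
      exact ⟨p, hp, (gd_congr hUQB hx hp1 hp2).mp hg⟩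
    · rintro ⟨p, hp, hg⟩
      obtain ⟨hp1, hp2, -, -⟩ := mem_PP hp
      exact ⟨p, hp, (gd_congr hUQB hx hp1 hp2).mpr hg⟩
  · refine ⟨?_, ?_, ?_, ?_, ?_⟩
    · unfold w1
      refine Finset.sum_nonneg fun p _ => ?_
      split_ifs
      · exact (Real.exp_pos _).le
      · exact le_rfl
    · have h1 : w1 K ℓ q n d0 d1 β x ≤ ∑ p ∈ PP n d0 d1, pc K ℓ x p.1 p.2 := by
        unfold w1
        refine Finset.sum_le_sum fun p hp => ?_
        split_ifs with hg
        · exact hgood x p hp hg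
        · exact hpc0 x p.1 p.2
      have h2 : ∑ p ∈ PP n d0 d1, pc K ℓ x p.1 p.2 ≤
          ∑ p ∈ Finset.range n ×ˢ Finset.range n, pc K ℓ x p.1 p.2 :=
        Finset.sum_le_sum_of_subset_of_nonneg (Finset.filter_subset _ _)
          fun p _ _ => hpc0 x p.1 p.2
      refine (h1.trans h2).trans (le_of_eq ?_)
      unfold WB PX
      rw [Finset.sum_product, Finset.range_eq_Ico]
    · intro h0
      unfold l1 at h0
      unfold w1
      refine Finset.sum_eq_zero fun p hp => ?_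
      rw [if_neg]
      intro hg
      rw [if_pos ⟨p, hp, hg⟩] at h0
      exact one_ne_zero h0
    · intro h0
      unfold l1 at h0 ⊢
      by_cases hex : ∃ p ∈ PP n d0 d1, gd K ℓ q β x p
      · rw [if_pos hex]
        obtain ⟨p, hp, hg⟩ := hex
        have h1 : Real.exp (cD ℓ x p.1 p.2 - 63) ≤ w1 K ℓ q n d0 d1 β x := by
          unfold w1
          have h2 := Finset.single_le_sum (f := fun p => if gd K ℓ q β x p then
            Real.exp (cD ℓ x p.1 p.2 - 63) else 0) (s := PP n d0 d1) (fun p _ => by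
              split_ifs
              · exact (Real.exp_pos _).le
              · exact le_rfl) hp
          simp only [if_pos hg] at h2
          exact h2
        refine le_trans (Real.exp_le_exp.mpr ?_) h1
        have h3 := hg.2
        push_cast
        linarith
      · rw [if_neg hex] at h0
        exact absurd rfl h0
    · unfold l1
      split_ifs <;> omega

end Pool.Agent.H37.SLN
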